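import Mathlib

set_option autoImplicit false

/-!
Multi-scale argument for sums of reciprocal differences.

For a finite set `A` of naturals let `cn A m a` be the number of elements of `A` in the dyadic
cell of length `2 ^ m` that contains `a`.  If the pair count of `A` in every dyadic cell of length
`2 ^ M` at distance scale `2 ^ m` (`m ≤ M`) is at most `C * 2 ^ (m + M) / M ^ 2` (as the upper bound
sieve gives for primes), then the sum of `1 / (b - a)` over the pairs of `A` is at most a constant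
times the size of `A`.  The proof is a stopping time argument over the levels of the normalised
density `cn A m a * m / 2 ^ m`.
-/

namespace Pool.Agent.H507R2.Recip

open Finset

/-- number of elements of `A` in the dyadic cell of scale `m` containing `a` -/
def cn (A : Finset ℕ) (m a : ℕ) : ℕ := (A.filter (fun b => b / 2 ^ m = a / 2 ^ m)).card

theorem cell_mono {m M a b : ℕ} (hmM : m ≤ M) (h : a / 2 ^ m = b / 2 ^ m) :
    a / 2 ^ M = b / 2 ^ M := by
  have h1 : ∀ x : ℕ, x / 2 ^ M = x / 2 ^ m / 2 ^ (M - m) := by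
    intro x
    rw [Nat.div_div_eq_div_mul, ← pow_add]
    congr 2
    omega
  rw [h1, h1 b, h]

theorem cn_congr (A : Finset ℕ) {m M a b : ℕ} (hmM : m ≤ M) (h : a / 2 ^ m = b / 2 ^ m) :
    cn A M a = cn A M b := by
  unfold cn
  rw [cell_mono hmM h]

theorem cn_pos {A : Finset ℕ} {a : ℕ} (ha : a ∈ A) (m : ℕ) : 1 ≤ cn A m a := by
  unfold cn
  exact Finset.card_pos.2 ⟨a, by simp [ha]⟩

/-- normalised pair count -/
noncomputable def g (A : Finset ℕ) (m a : ℕ) : ℝ := ((cn A m a : ℝ) - 1) / 2 ^ m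

theorem g_nonneg {A : Finset ℕ} {a : ℕ} (ha : a ∈ A) (m : ℕ) : 0 ≤ g A m a := by
  unfold g
  have h : (1 : ℝ) ≤ cn A m a := by exact_mod_cast cn_pos ha m
  have : (0 : ℝ) ≤ (cn A m a : ℝ) - 1 := by linarith
  positivity

/-- the largest scale at which the normalised density is at least `2 ^ (-k)` -/
def tau (A : Finset ℕ) (L k a : ℕ) : ℕ :=
  Nat.findGreatest (fun M => 2 ^ M ≤ 2 ^ k * (cn A M a * M)) L

theorem tau_le (A : Finset ℕ) (L k a : ℕ) : tau A L k a ≤ L := Nat.findGreatest_le L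

theorem tau_mono (A : Finset ℕ) (L k a : ℕ) : tau A L k a ≤ tau A L (k + 1) a := by
  unfold tau
  apply Nat.findGreatest_mono_left
  intro n hn
  refine hn.trans ?_
  apply Nat.mul_le_mul_right
  exact Nat.pow_le_pow_right (by norm_num) (by omega)

theorem tau_last {A : Finset ℕ} (L : ℕ) {a : ℕ} (ha : a ∈ A) : tau A L L a = L := by
  rcases Nat.eq_zero_or_pos L with h | h
  · subst h
    have := tau_le A 0 0 a
    omega
  · apply le_antisymm (tau_le A L L a)
    unfold tau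
    apply Nat.le_findGreatest le_rfl
    have h1 := cn_pos ha L
    have h2 : 1 ≤ cn A L a * L := Nat.mul_pos h1 h
    calc 2 ^ L = 2 ^ L * 1 := (mul_one _).symm
      _ ≤ _ := Nat.mul_le_mul_left _ h2

theorem tau_spec {A : Finset ℕ} {L k a : ℕ} (h : tau A L k a ≠ 0) :
    2 ^ (tau A L k a) ≤ 2 ^ k * (cn A (tau A L k a) a * tau A L k a) := by
  exact Nat.findGreatest_of_ne_zero (P := fun M => 2 ^ M ≤ 2 ^ k * (cn A M a * M))
    (n := L) (m := tau A L k a) rfl h

theorem tau_lt {A : Finset ℕ} {L k a m : ℕ} (h : tau A L k a < m) (hm : m ≤ L) :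
    2 ^ k * (cn A m a * m) < 2 ^ m := by
  have := Nat.findGreatest_is_greatest (P := fun M => 2 ^ M ≤ 2 ^ k * (cn A M a * M)) h hm
  simpa using this

theorem tau_congr {A : Finset ℕ} {L k a b : ℕ}
    (h : b / 2 ^ (tau A L k a) = a / 2 ^ (tau A L k a)) : tau A L k b = tau A L k a := by
  have key : ∀ M, tau A L k a ≤ M → cn A M b = cn A M a := fun M hM => cn_congr A hM h
  conv_lhs => unfold tau
  rw [Nat.findGreatest_eq_iff]
  refine ⟨tau_le A L k a, ?_, ?_⟩
  · intro h0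
    rw [key _ le_rfl]
    exact tau_spec h0
  · intro n hn hnL
    rw [key n hn.le]
    exact not_le.2 (tau_lt hn hnL)

/-- contribution of the small scales below a stopping time -/
theorem small_scales {A : Finset ℕ} {L : ℕ} {C : ℝ} (hC : 0 ≤ C)
    (H : ∀ M j m : ℕ, 1 ≤ m → m ≤ M → M ≤ L →
      ∑ a ∈ A.filter (fun a => a / 2 ^ M = j), g A m a ≤ C * 2 ^ M / (M : ℝ) ^ 2)
    (k T : ℕ) (hT : 0 < T) :
    ∑ a ∈ A, ∑ m ∈ Ioc 0 (tau A L k a / T), g A m a ≤ C * 2 ^ k / T * A.card := by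
  classical
  have hTr : (0 : ℝ) < T := by exact_mod_cast hT
  set φ : ℕ → ℕ × ℕ := fun a => (tau A L k a, a / 2 ^ (tau A L k a)) with hφ
  have hmaps : ∀ a ∈ A, φ a ∈ A.image φ := fun a ha => mem_image_of_mem φ ha
  rw [← Finset.sum_fiberwise_of_maps_to hmaps]
  have hcard : ((A.card : ℕ) : ℝ) = ∑ y ∈ A.image φ, ((A.filter (fun a => φ a = y)).card : ℝ) := by
    rw [Finset.card_eq_sum_card_fiberwise hmaps]
    push_cast
    rfl
  rw [hcard, mul_sum]
  apply Finset.sum_le_sum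
  intro y hy
  rw [mem_image] at hy
  obtain ⟨a0, ha0, rfl⟩ := hy
  set M := tau A L k a0 with hM
  have hfib : A.filter (fun a => φ a = φ a0) = A.filter (fun a => a / 2 ^ M = a0 / 2 ^ M) := by
    apply Finset.filter_congr
    intro a _
    simp only [hφ, Prod.mk.injEq]
    constructor
    · rintro ⟨h1, h2⟩
      rw [h1] at h2
      exact h2
    · intro h
      have h1 : tau A L k a = tau A L k a0 := tau_congr h
      refine ⟨h1, ?_⟩
      rw [h1]
      exact h
  have hF : ∀ a ∈ A.filter (fun a => φ a = φ a0), ∑ m ∈ Ioc 0 (tau A L k a / T), g A m a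
      = ∑ m ∈ Ioc 0 (M / T), g A m a := by
    intro a ha
    rw [mem_filter] at ha
    have h2 := ha.2
    simp only [hφ, Prod.mk.injEq] at h2
    rw [h2.1]
  rw [Finset.sum_congr rfl hF, Finset.sum_comm, hfib]
  rcases Nat.eq_zero_or_pos M with h0 | h0
  · rw [h0]
    simp only [Nat.zero_div, Finset.Ioc_self, Finset.sum_empty]
    positivity
  have hMr : (0 : ℝ) < M := by exact_mod_cast h0
  have hML : M ≤ L := tau_le A L k a0
  have hstep : ∑ m ∈ Ioc 0 (M / T), ∑ a ∈ A.filter (fun a => a / 2 ^ M = a0 / 2 ^ M), g A m a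
      ≤ ∑ _m ∈ Ioc 0 (M / T), C * 2 ^ M / (M : ℝ) ^ 2 := by
    apply Finset.sum_le_sum
    intro m hm
    rw [mem_Ioc] at hm
    exact H M _ m hm.1 (hm.2.trans (Nat.div_le_self _ _)) hML
  refine hstep.trans ?_
  rw [Finset.sum_const, Nat.card_Ioc, nsmul_eq_mul, Nat.sub_zero]
  have h3 : ((M / T : ℕ) : ℝ) ≤ (M : ℝ) / T := Nat.cast_div_le
  have h4 : (2 : ℝ) ^ M ≤ 2 ^ k *
      (((A.filter (fun a => a / 2 ^ M = a0 / 2 ^ M)).card : ℝ) * M) := by
    have := tau_spec (A := A) (L := L) (k := k) (a := a0) (by rw [← hM]; omega)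
    rw [← hM] at this
    exact_mod_cast this
  calc ((M / T : ℕ) : ℝ) * (C * 2 ^ M / (M : ℝ) ^ 2)
      ≤ (M : ℝ) / T * (C * 2 ^ M / (M : ℝ) ^ 2) :=
        mul_le_mul_of_nonneg_right h3 (by positivity)
    _ = C / (T * M) * 2 ^ M := by field_simp
    _ ≤ C / (T * M) * (2 ^ k * (((A.filter (fun a => a / 2 ^ M = a0 / 2 ^ M)).card : ℝ) * M)) :=
        mul_le_mul_of_nonneg_left h4 (by positivity)
    _ = _ := by field_simp

theorem harm (i M : ℕ) : ∑ m ∈ Ioc (M / 2 ^ i) M, (1 : ℝ) / m ≤ i := by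
  induction i with
  | zero => simp
  | succ i ih =>
    set q := M / 2 ^ i with hq
    have h1 : M / 2 ^ (i + 1) = q / 2 := by
      rw [pow_succ, ← Nat.div_div_eq_div_mul]
    rw [h1]
    have hqM : q ≤ M := Nat.div_le_self _ _
    rw [← Finset.sum_Ioc_consecutive _ (Nat.div_le_self q 2) hqM]
    have h2 : ∑ m ∈ Ioc (q / 2) q, (1 : ℝ) / m ≤ 1 := by
      have h3 : ∀ m ∈ Ioc (q / 2) q, (1 : ℝ) / m ≤ 1 / ((q / 2 : ℕ) + 1 : ℝ) := by
        intro m hm
        rw [mem_Ioc] at hm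
        apply one_div_le_one_div_of_le (by positivity)
        exact_mod_cast hm.1
      refine (Finset.sum_le_sum h3).trans ?_
      rw [Finset.sum_const, Nat.card_Ioc, nsmul_eq_mul, mul_one_div, div_le_one (by positivity)]
      have : q - q / 2 ≤ q / 2 + 1 := by
        clear_value q
        omega
      exact_mod_cast this
    push_cast
    linarith

theorem mid_scales {A : Finset ℕ} {L a : ℕ} (ha : a ∈ A) (k : ℕ) :
    ∑ m ∈ Ioc (tau A L k a) (tau A L (k + 1) a), g A m a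
      ≤ ∑ m ∈ Ioc 0 (tau A L (k + 1) a / 4 ^ (k + 1)), g A m a + (2 * (k + 1) : ℝ) / 2 ^ k := by
  classical
  set t := tau A L (k + 1) a with ht
  set t' := tau A L k a with ht'
  set q := t / 4 ^ (k + 1) with hq
  have hqt : q ≤ t := Nat.div_le_self _ _
  have htL : t ≤ L := tau_le A L (k + 1) a
  have hsub : Ioc t' t ⊆ Ioc 0 q ∪ (Ioc q t).filter (fun m => t' < m) := by
    intro m hm
    rw [mem_Ioc] at hm
    rw [mem_union, mem_filter, mem_Ioc, mem_Ioc]
    omega
  have h1 : ∑ m ∈ Ioc t' t, g A m a ≤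
      ∑ m ∈ Ioc 0 q ∪ (Ioc q t).filter (fun m => t' < m), g A m a :=
    Finset.sum_le_sum_of_subset_of_nonneg hsub (fun m _ _ => g_nonneg ha m)
  have hdisj : Disjoint (Ioc 0 q) ((Ioc q t).filter (fun m => t' < m)) := by
    rw [Finset.disjoint_left]
    intro m hm hm'
    rw [mem_Ioc] at hm
    rw [mem_filter, mem_Ioc] at hm'
    omega
  rw [Finset.sum_union hdisj] at h1
  refine h1.trans ?_
  have h2 : ∑ m ∈ (Ioc q t).filter (fun m => t' < m), g A m a ≤
      ∑ m ∈ (Ioc q t).filter (fun m => t' < m), (1 / 2 ^ k : ℝ) * (1 / m) := by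
    apply Finset.sum_le_sum
    intro m hm
    rw [mem_filter, mem_Ioc] at hm
    have h3 := tau_lt (A := A) (L := L) (k := k) (a := a) (m := m) hm.2 (hm.1.2.trans htL)
    have h4 : (2 : ℝ) ^ k * ((cn A m a : ℝ) * m) ≤ 2 ^ m := by exact_mod_cast h3.le
    have hm0 : (0 : ℝ) < m := by
      have : 0 < m := by omega
      exact_mod_cast this
    unfold g
    rw [div_le_iff₀ (by positivity)]
    have h5 : (cn A m a : ℝ) ≤ 1 / 2 ^ k * (1 / m) * 2 ^ m := by
      rw [one_div_mul_one_div, one_div, inv_mul_eq_div, le_div_iff₀ (by positivity)]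
      calc (cn A m a : ℝ) * (2 ^ k * m) = (2 : ℝ) ^ k * ((cn A m a : ℝ) * m) := by ring
        _ ≤ _ := h4
    linarith
  have h3 : ∑ m ∈ (Ioc q t).filter (fun m => t' < m), (1 / 2 ^ k : ℝ) * (1 / m) ≤
      ∑ m ∈ Ioc q t, (1 / 2 ^ k : ℝ) * (1 / m) := by
    apply Finset.sum_le_sum_of_subset_of_nonneg (Finset.filter_subset _ _)
    intro m _ _
    positivity
  have h4 : ∑ m ∈ Ioc q t, (1 : ℝ) / m ≤ 2 * (k + 1) := by
    have h5 := harm (2 * (k + 1)) t
    have h6 : t / 2 ^ (2 * (k + 1)) = q := by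
      rw [hq, pow_mul]; norm_num
    rw [h6] at h5
    refine h5.trans ?_
    push_cast
    exact le_rfl
  rw [← mul_sum, ← mul_sum] at h3
  rw [← mul_sum] at h2
  have h5 : (1 / 2 ^ k : ℝ) * ∑ m ∈ Ioc q t, (1 : ℝ) / m ≤ (2 * (k + 1) : ℝ) / 2 ^ k := by
    rw [one_div, inv_mul_eq_div]
    exact div_le_div_of_nonneg_right h4 (by positivity)
  linarith

theorem telescope {A : Finset ℕ} {L a : ℕ} (K : ℕ) :
    ∑ m ∈ Ioc 0 (tau A L K a), g A m a = ∑ m ∈ Ioc 0 (tau A L 0 a), g A m a +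
      ∑ k ∈ range K, ∑ m ∈ Ioc (tau A L k a) (tau A L (k + 1) a), g A m a := by
  induction K with
  | zero => simp
  | succ K ih =>
    rw [Finset.sum_range_succ, ← add_assoc, ← ih]
    exact (Finset.sum_Ioc_consecutive _ (Nat.zero_le _) (tau_mono A L K a)).symm

theorem geo (K : ℕ) : ∑ k ∈ range K, ((2 * (k + 1) : ℝ) / 2 ^ k) ≤ 8 := by
  have h : ∀ K : ℕ, ∑ k ∈ range K, ((2 * (k + 1) : ℝ) / 2 ^ k) = 8 - (4 * K + 8) / 2 ^ K := by
    intro K
    induction K with
    | zero => norm_num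
    | succ K ih =>
      rw [Finset.sum_range_succ, ih, pow_succ]
      have : (0 : ℝ) < 2 ^ K := by positivity
      field_simp
      push_cast
      ring
  rw [h]
  have : (0 : ℝ) ≤ (4 * K + 8) / 2 ^ K := by positivity
  linarith

theorem geo2 (K : ℕ) : ∑ k ∈ range K, ((2 : ℝ) ^ (k + 1) / 4 ^ (k + 1)) ≤ 1 := by
  have h : ∀ K : ℕ, ∑ k ∈ range K, ((2 : ℝ) ^ (k + 1) / 4 ^ (k + 1)) = 1 - 1 / 2 ^ K := by
    intro K
    induction K with
    | zero => norm_num
    | succ K ih =>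
      rw [Finset.sum_range_succ, ih]
      have h4 : (4 : ℝ) ^ (K + 1) = 2 ^ (K + 1) * 2 ^ (K + 1) := by
        rw [← mul_pow]; norm_num
      rw [h4, pow_succ]
      have : (0 : ℝ) < 2 ^ K := by positivity
      field_simp
      ring
  rw [h]
  have : (0 : ℝ) ≤ 1 / 2 ^ K := by positivity
  linarith

/-- main estimate -/
theorem main_scales {A : Finset ℕ} {L : ℕ} {C : ℝ} (hC : 0 ≤ C)
    (H : ∀ M j m : ℕ, 1 ≤ m → m ≤ M → M ≤ L →
      ∑ a ∈ A.filter (fun a => a / 2 ^ M = j), g A m a ≤ C * 2 ^ M / (M : ℝ) ^ 2) :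
    ∑ a ∈ A, ∑ m ∈ Ioc 0 L, g A m a ≤ (2 * C + 8) * A.card := by
  have h1 : ∀ a ∈ A, ∑ m ∈ Ioc 0 L, g A m a ≤ ∑ m ∈ Ioc 0 (tau A L 0 a / 1), g A m a +
      ∑ k ∈ range L, (∑ m ∈ Ioc 0 (tau A L (k + 1) a / 4 ^ (k + 1)), g A m a
        + (2 * (k + 1) : ℝ) / 2 ^ k) := by
    intro a ha
    have h2 := telescope (A := A) (L := L) (a := a) L
    rw [tau_last L ha] at h2
    rw [h2, Nat.div_one]
    have := Finset.sum_le_sum (s := range L) fun k _ => mid_scales (A := A) (L := L) ha k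
    linarith
  refine (Finset.sum_le_sum h1).trans ?_
  rw [Finset.sum_add_distrib, Finset.sum_comm]
  have h2 := small_scales hC H 0 1 one_pos
  have h3 : ∀ k ∈ range L, ∑ a ∈ A, (∑ m ∈ Ioc 0 (tau A L (k + 1) a / 4 ^ (k + 1)), g A m a
        + (2 * (k + 1) : ℝ) / 2 ^ k) ≤
      (C * A.card) * ((2 : ℝ) ^ (k + 1) / 4 ^ (k + 1)) + A.card * ((2 * (k + 1) : ℝ) / 2 ^ k) := by
    intro k _
    rw [Finset.sum_add_distrib, Finset.sum_const, nsmul_eq_mul]
    have h4 := small_scales hC H (k + 1) (4 ^ (k + 1)) (by positivity)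
    have h5 : C * 2 ^ (k + 1) / ((4 ^ (k + 1) : ℕ) : ℝ) * A.card
        = (C * A.card) * ((2 : ℝ) ^ (k + 1) / 4 ^ (k + 1)) := by
      push_cast; ring
    rw [h5] at h4
    linarith
  have h4 := Finset.sum_le_sum h3
  rw [Finset.sum_add_distrib, ← mul_sum, ← mul_sum] at h4
  have h5 := mul_le_mul_of_nonneg_left (geo2 L) (show (0 : ℝ) ≤ C * A.card by positivity)
  have h6 := mul_le_mul_of_nonneg_left (geo L) (show (0 : ℝ) ≤ A.card by positivity)
  have h7 : C * 2 ^ 0 / ((1 : ℕ) : ℝ) * A.card = C * A.card := by norm_num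
  rw [h7] at h2
  linarith

end Pool.Agent.H507R2.Recip
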