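import Mathlib
import Pool.Agent.H507R2.RecipA

set_option autoImplicit false

namespace Pool.Agent.H507R2.Recip

open Finset

/-- number of elements of `A` in the cell after the one of `a` -/
def nx (A : Finset ℕ) (m a : ℕ) : ℕ := (A.filter (fun b => b / 2 ^ m = a / 2 ^ m + 1)).card

theorem sum_nx_le (A : Finset ℕ) (m : ℕ) :
    ∑ a ∈ A, (nx A m a : ℝ) ≤ ∑ a ∈ A, (cn A m a : ℝ) := by
  classical
  set f : ℕ → ℝ := fun j => ((A.filter (fun b => b / 2 ^ m = j)).card : ℝ) with hf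
  have hf0 : ∀ j, 0 ≤ f j := fun j => by simp only [hf]; positivity
  obtain ⟨N, hN⟩ : ∃ N, ∀ a ∈ A, a / 2 ^ m < N := by
    refine ⟨(A.sup fun a => a / 2 ^ m) + 1, fun a ha => ?_⟩
    have := Finset.le_sup (f := fun a => a / 2 ^ m) ha
    exact Nat.lt_succ_of_le this
  have key : ∀ F : ℕ → ℝ, ∑ a ∈ A, F (a / 2 ^ m) = ∑ j ∈ range N, f j * F j := by
    intro F
    have hmaps : ∀ a ∈ A, (fun a => a / 2 ^ m) a ∈ range N := fun a ha => mem_range.2 (hN a ha)
    rw [← Finset.sum_fiberwise_of_maps_to hmaps]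
    apply Finset.sum_congr rfl
    intro j _
    have h1 : ∀ a ∈ A.filter (fun a => (fun a => a / 2 ^ m) a = j), F (a / 2 ^ m) = F j := by
      intro a ha
      rw [mem_filter] at ha
      simp only at ha
      rw [ha.2]
    rw [Finset.sum_congr rfl h1, Finset.sum_const, nsmul_eq_mul]
  have h1 : ∑ a ∈ A, (nx A m a : ℝ) = ∑ j ∈ range N, f j * f (j + 1) := by
    have := key (fun j => f (j + 1))
    rw [← this]
    apply Finset.sum_congr rfl
    intro a _
    simp only [hf, nx]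
  have h2 : ∑ a ∈ A, (cn A m a : ℝ) = ∑ j ∈ range N, f j * f j := by
    have := key f
    rw [← this]
    apply Finset.sum_congr rfl
    intro a _
    simp only [hf, cn]
  rw [h1, h2]
  have h3 : ∑ j ∈ range N, f j * f (j + 1) ≤ ∑ j ∈ range N, (f j * f j + f (j + 1) * f (j + 1)) / 2 := by
    apply Finset.sum_le_sum
    intro j _
    nlinarith [sq_nonneg (f j - f (j + 1))]
  have h4 : ∑ j ∈ range N, f (j + 1) * f (j + 1) ≤ ∑ j ∈ range N, f j * f j := by
    have h5 := Finset.sum_range_succ' (fun j => f j * f j) N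
    have h6 := Finset.sum_range_succ (fun j => f j * f j) N
    have h7 : f N = 0 := by
      simp only [hf]
      rw [Nat.cast_eq_zero, Finset.card_eq_zero, Finset.filter_eq_empty_iff]
      intro a ha h
      have := hN a ha
      omega
    rw [h7] at h6
    have h8 : 0 ≤ f 0 * f 0 := mul_nonneg (hf0 0) (hf0 0)
    linarith
  rw [← Finset.sum_div, Finset.sum_add_distrib] at h3
  linarith

theorem recip_le {a b L : ℕ} (hab : a < b) (hb : b < 2 ^ L) :
    (1 : ℝ) / ((b : ℝ) - a) ≤ ∑ m ∈ Ioc 0 L, (2 / 2 ^ m : ℝ) *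
      ((if b / 2 ^ m = a / 2 ^ m then 1 else 0) + (if b / 2 ^ m = a / 2 ^ m + 1 then 1 else 0)) := by
  set d := b - a with hd
  have hd0 : d ≠ 0 := by omega
  set m := Nat.log 2 d with hm
  have h1 : 2 ^ m ≤ d := Nat.pow_log_le_self 2 hd0
  have h2 : d < 2 ^ (m + 1) := Nat.lt_pow_succ_log_self (by norm_num) d
  have hmL : m + 1 ≤ L := by
    have h3 : 2 ^ m < 2 ^ L := by omega
    have := (Nat.pow_lt_pow_iff_right (by norm_num : 1 < 2)).1 h3
    omega
  have hmem : m + 1 ∈ Ioc 0 L := by rw [mem_Ioc]; omega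
  have hterm : (1 : ℝ) / ((b : ℝ) - a) ≤ (2 / 2 ^ (m + 1) : ℝ) *
      ((if b / 2 ^ (m + 1) = a / 2 ^ (m + 1) then 1 else 0) +
        (if b / 2 ^ (m + 1) = a / 2 ^ (m + 1) + 1 then 1 else 0)) := by
    have h3 : b / 2 ^ (m + 1) = a / 2 ^ (m + 1) ∨ b / 2 ^ (m + 1) = a / 2 ^ (m + 1) + 1 := by
      have hb' : b = a + d := by omega
      have h4 : a / 2 ^ (m + 1) ≤ b / 2 ^ (m + 1) := Nat.div_le_div_right hab.le
      have h5 : b / 2 ^ (m + 1) ≤ a / 2 ^ (m + 1) + 1 := by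
        have h6 : b ≤ a + 2 ^ (m + 1) := by omega
        calc b / 2 ^ (m + 1) ≤ (a + 2 ^ (m + 1)) / 2 ^ (m + 1) := Nat.div_le_div_right h6
          _ = a / 2 ^ (m + 1) + 1 := Nat.add_div_right _ (by positivity)
      omega
    have h4 : (1 : ℝ) ≤ (if b / 2 ^ (m + 1) = a / 2 ^ (m + 1) then (1 : ℝ) else 0) +
        (if b / 2 ^ (m + 1) = a / 2 ^ (m + 1) + 1 then (1 : ℝ) else 0) := by
      rcases h3 with h | h
      · rw [if_pos h]; split_ifs <;> norm_num
      · rw [if_pos h]; split_ifs <;> norm_num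
    have h5 : (1 : ℝ) / ((b : ℝ) - a) ≤ 2 / 2 ^ (m + 1) := by
      have h6 : ((b : ℝ) - a) = (d : ℝ) := by
        rw [hd, Nat.cast_sub hab.le]
      rw [h6]
      have h7 : (2 : ℝ) ^ m ≤ d := by exact_mod_cast h1
      have h8 : (2 : ℝ) / 2 ^ (m + 1) = 1 / 2 ^ m := by
        rw [pow_succ]; field_simp
      rw [h8]
      exact one_div_le_one_div_of_le (by positivity) h7
    calc (1 : ℝ) / ((b : ℝ) - a) ≤ 2 / 2 ^ (m + 1) := h5
      _ = 2 / 2 ^ (m + 1) * 1 := (mul_one _).symm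
      _ ≤ _ := mul_le_mul_of_nonneg_left h4 (by positivity)
  refine hterm.trans ?_
  refine Finset.single_le_sum (f := fun m => (2 / 2 ^ m : ℝ) *
      ((if b / 2 ^ m = a / 2 ^ m then 1 else 0) + (if b / 2 ^ m = a / 2 ^ m + 1 then 1 else 0)))
      ?_ hmem
  intro i _
  have : (0 : ℝ) ≤ (if b / 2 ^ i = a / 2 ^ i then (1 : ℝ) else 0) +
      (if b / 2 ^ i = a / 2 ^ i + 1 then (1 : ℝ) else 0) := by
    split_ifs <;> norm_num
  positivity

theorem inv_pow_sum (L : ℕ) : ∑ m ∈ Ioc 0 L, (1 : ℝ) / 2 ^ m ≤ 1 := by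
  have h : ∀ L : ℕ, ∑ m ∈ Ioc 0 L, (1 : ℝ) / 2 ^ m = 1 - 1 / 2 ^ L := by
    intro L
    induction L with
    | zero => simp
    | succ L ih =>
      rw [← Finset.insert_Ioc_right_eq_Ioc_add_one (Nat.zero_le L), Finset.sum_insert (by simp), ih,
        pow_succ]
      have : (0 : ℝ) < 2 ^ L := by positivity
      field_simp
      ring
  rw [h]
  have : (0 : ℝ) ≤ 1 / 2 ^ L := by positivity
  linarith

/-- the abstract bound for the sum of reciprocal differences -/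
theorem recip_sum {A : Finset ℕ} {L : ℕ} {C : ℝ} (hC : 0 ≤ C) (hL : ∀ a ∈ A, a < 2 ^ L)
    (H : ∀ M j m : ℕ, 1 ≤ m → m ≤ M → M ≤ L →
      ∑ a ∈ A.filter (fun a => a / 2 ^ M = j), g A m a ≤ C * 2 ^ M / (M : ℝ) ^ 2) :
    ∑ a ∈ A, ∑ b ∈ A.filter (fun b => a < b), (1 : ℝ) / ((b : ℝ) - a) ≤ (8 * C + 36) * A.card := by
  classical
  have h1 : ∀ a ∈ A, ∑ b ∈ A.filter (fun b => a < b), (1 : ℝ) / ((b : ℝ) - a) ≤
      ∑ m ∈ Ioc 0 L, (2 / 2 ^ m : ℝ) * ((cn A m a : ℝ) + (nx A m a : ℝ)) := by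
    intro a _
    have h2 : ∀ b ∈ A.filter (fun b => a < b), (1 : ℝ) / ((b : ℝ) - a) ≤
        ∑ m ∈ Ioc 0 L, (2 / 2 ^ m : ℝ) *
        ((if b / 2 ^ m = a / 2 ^ m then 1 else 0) + (if b / 2 ^ m = a / 2 ^ m + 1 then 1 else 0)) := by
      intro b hb
      rw [mem_filter] at hb
      exact recip_le hb.2 (hL b hb.1)
    refine (Finset.sum_le_sum h2).trans ?_
    rw [Finset.sum_comm]
    apply Finset.sum_le_sum
    intro m _
    rw [← mul_sum]
    apply mul_le_mul_of_nonneg_left _ (by positivity)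
    have h3 : ∑ b ∈ A.filter (fun b => a < b), ((if b / 2 ^ m = a / 2 ^ m then (1 : ℝ) else 0) +
        (if b / 2 ^ m = a / 2 ^ m + 1 then (1 : ℝ) else 0)) ≤
        ∑ b ∈ A, ((if b / 2 ^ m = a / 2 ^ m then (1 : ℝ) else 0) +
        (if b / 2 ^ m = a / 2 ^ m + 1 then (1 : ℝ) else 0)) := by
      apply Finset.sum_le_sum_of_subset_of_nonneg (Finset.filter_subset _ _)
      intro b _ _
      split_ifs <;> norm_num
    refine h3.trans ?_
    rw [Finset.sum_add_distrib, ← Finset.sum_filter, ← Finset.sum_filter, Finset.sum_const,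
      Finset.sum_const, nsmul_eq_mul, nsmul_eq_mul, mul_one, mul_one]
    exact le_rfl
  refine (Finset.sum_le_sum h1).trans ?_
  rw [Finset.sum_comm]
  have h2 : ∀ m ∈ Ioc 0 L, ∑ a ∈ A, (2 / 2 ^ m : ℝ) * ((cn A m a : ℝ) + (nx A m a : ℝ)) ≤
      ∑ a ∈ A, 4 * (g A m a) + 4 * A.card * (1 / 2 ^ m) := by
    intro m _
    rw [← mul_sum, Finset.sum_add_distrib]
    have h3 := sum_nx_le A m
    have h4 : (2 / 2 ^ m : ℝ) * (∑ a ∈ A, (cn A m a : ℝ) + ∑ a ∈ A, (nx A m a : ℝ)) ≤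
        (2 / 2 ^ m : ℝ) * (2 * ∑ a ∈ A, (cn A m a : ℝ)) :=
      mul_le_mul_of_nonneg_left (by linarith) (by positivity)
    refine h4.trans (le_of_eq ?_)
    have h5 : ∑ a ∈ A, 4 * (g A m a) = 4 / 2 ^ m * (∑ a ∈ A, (cn A m a : ℝ) - A.card) := by
      rw [← mul_sum]
      unfold g
      rw [← Finset.sum_div, Finset.sum_sub_distrib, Finset.sum_const, nsmul_eq_mul, mul_one]
      ring
    rw [h5]
    ring
  refine (Finset.sum_le_sum h2).trans ?_
  rw [Finset.sum_add_distrib, ← mul_sum, Finset.sum_comm]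
  have h3 := main_scales hC H
  have h4 := mul_le_mul_of_nonneg_left (inv_pow_sum L) (show (0 : ℝ) ≤ 4 * A.card by positivity)
  have h5 : ∑ a ∈ A, ∑ m ∈ Ioc 0 L, 4 * g A m a = 4 * ∑ a ∈ A, ∑ m ∈ Ioc 0 L, g A m a := by
    rw [mul_sum]
    apply Finset.sum_congr rfl
    intro a _
    rw [mul_sum]
  rw [h5]
  linarith

end Pool.Agent.H507R2.Recip
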