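import Mathlib
import Pool.Agent.Erdos456.Sieve
import Pool.Agent.Erdos456.Mertens
import Pool.Agent.H507R2.RecipA

set_option autoImplicit false

namespace Pool.Agent.H507R2.Recip

open Finset

/-- pairs of primes at distance `d` whose smaller member lies in a dyadic cell -/
def PP (M j d : ℕ) : Finset ℕ :=
  (Icc 1 (2 ^ M)).filter (fun n => (1 * n + j * 2 ^ M).Prime ∧ (1 * n + (j * 2 ^ M + d)).Prime)

theorem card_pairs_filter {s t : Finset ℕ} (p : ℕ → ℕ → Prop) [∀ a b, Decidable (p a b)] :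
    ∑ a ∈ s, (t.filter (p a)).card = ((s ×ˢ t).filter (fun x => p x.1 x.2)).card := by
  rw [Finset.card_filter, Finset.sum_product]
  apply Finset.sum_congr rfl
  intro a _
  rw [Finset.card_filter]

theorem up_count {A : Finset ℕ} (hA : ∀ a ∈ A, (a + 1).Prime) (M j m : ℕ) (hmM : m ≤ M) :
    ∑ a ∈ A.filter (fun a => a / 2 ^ M = j),
      (A.filter (fun b => a < b ∧ b / 2 ^ m = a / 2 ^ m)).card ≤
      ∑ d ∈ Icc 1 (2 ^ m), (PP M j d).card := by
  classical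
  rw [card_pairs_filter (fun a b => a < b ∧ b / 2 ^ m = a / 2 ^ m), ← Finset.card_sigma]
  apply Finset.card_le_card_of_injOn (fun x => (⟨x.2 - x.1, x.1 + 1 - j * 2 ^ M⟩ : (_ : ℕ) × ℕ))
  · rintro ⟨a, b⟩ hx
    simp only [Finset.coe_filter, mem_product, mem_filter, Set.mem_ofPred_eq] at hx
    obtain ⟨⟨⟨ha, haj⟩, hb⟩, hab, hcell⟩ := hx
    simp only [Finset.coe_sigma, Set.mem_sigma_iff, Finset.mem_coe]
    have h1 : j * 2 ^ M ≤ a := by rw [← haj]; exact Nat.div_mul_le_self a _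
    have h2 : a < (j + 1) * 2 ^ M := by
      exact (Nat.div_lt_iff_lt_mul (by positivity)).1 (by omega)
    have h3 : b - a < 2 ^ m := by
      have h4 : a / 2 ^ m * 2 ^ m ≤ a := Nat.div_mul_le_self a _
      have h5 : b % 2 ^ m < 2 ^ m := Nat.mod_lt _ (by positivity)
      have h6 := Nat.div_add_mod b (2 ^ m)
      rw [hcell, mul_comm] at h6
      omega
    refine ⟨by rw [mem_Icc]; omega, ?_⟩
    unfold PP
    rw [mem_filter, mem_Icc]
    have h7 : (j + 1) * 2 ^ M = j * 2 ^ M + 2 ^ M := by ring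
    refine ⟨by omega, ?_, ?_⟩
    · have : 1 * (a + 1 - j * 2 ^ M) + j * 2 ^ M = a + 1 := by omega
      rw [this]; exact hA a ha
    · have : 1 * (a + 1 - j * 2 ^ M) + (j * 2 ^ M + (b - a)) = b + 1 := by omega
      rw [this]; exact hA b hb
  · rintro ⟨a, b⟩ hx ⟨a', b'⟩ hx' h
    simp only [Finset.coe_filter, mem_product, mem_filter, Set.mem_ofPred_eq] at hx hx'
    obtain ⟨⟨⟨ha, haj⟩, hb⟩, hab, hcell⟩ := hx
    obtain ⟨⟨⟨ha', haj'⟩, hb'⟩, hab', hcell'⟩ := hx'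
    simp only [Sigma.mk.injEq, heq_eq_eq] at h
    have h1 : j * 2 ^ M ≤ a := by rw [← haj]; exact Nat.div_mul_le_self a _
    have h1' : j * 2 ^ M ≤ a' := by rw [← haj']; exact Nat.div_mul_le_self a' _
    rw [Prod.mk.injEq]
    omega

theorem down_count {A : Finset ℕ} (hA : ∀ a ∈ A, (a + 1).Prime) (M j m : ℕ) (hmM : m ≤ M) :
    ∑ a ∈ A.filter (fun a => a / 2 ^ M = j),
      (A.filter (fun b => b < a ∧ b / 2 ^ m = a / 2 ^ m)).card ≤
      ∑ d ∈ Icc 1 (2 ^ m), (PP M j d).card := by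
  classical
  rw [card_pairs_filter (fun a b => b < a ∧ b / 2 ^ m = a / 2 ^ m), ← Finset.card_sigma]
  apply Finset.card_le_card_of_injOn (fun x => (⟨x.1 - x.2, x.2 + 1 - j * 2 ^ M⟩ : (_ : ℕ) × ℕ))
  · rintro ⟨a, b⟩ hx
    simp only [Finset.coe_filter, mem_product, mem_filter, Set.mem_ofPred_eq] at hx
    obtain ⟨⟨⟨ha, haj⟩, hb⟩, hab, hcell⟩ := hx
    simp only [Finset.coe_sigma, Set.mem_sigma_iff, Finset.mem_coe]
    have hbj : b / 2 ^ M = j := (cell_mono hmM hcell).trans haj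
    have h1 : j * 2 ^ M ≤ b := by rw [← hbj]; exact Nat.div_mul_le_self b _
    have h2 : b < (j + 1) * 2 ^ M := by
      exact (Nat.div_lt_iff_lt_mul (by positivity)).1 (by omega)
    have h3 : a - b < 2 ^ m := by
      have h4 : b / 2 ^ m * 2 ^ m ≤ b := Nat.div_mul_le_self b _
      have h5 : a % 2 ^ m < 2 ^ m := Nat.mod_lt _ (by positivity)
      have h6 := Nat.div_add_mod a (2 ^ m)
      rw [← hcell, mul_comm] at h6
      omega
    refine ⟨by rw [mem_Icc]; omega, ?_⟩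
    unfold PP
    rw [mem_filter, mem_Icc]
    have h7 : (j + 1) * 2 ^ M = j * 2 ^ M + 2 ^ M := by ring
    refine ⟨by omega, ?_, ?_⟩
    · have : 1 * (b + 1 - j * 2 ^ M) + j * 2 ^ M = b + 1 := by omega
      rw [this]; exact hA b hb
    · have : 1 * (b + 1 - j * 2 ^ M) + (j * 2 ^ M + (a - b)) = a + 1 := by omega
      rw [this]; exact hA a ha
  · rintro ⟨a, b⟩ hx ⟨a', b'⟩ hx' h
    simp only [Finset.coe_filter, mem_product, mem_filter, Set.mem_ofPred_eq] at hx hx'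
    obtain ⟨⟨⟨ha, haj⟩, hb⟩, hab, hcell⟩ := hx
    obtain ⟨⟨⟨ha', haj'⟩, hb'⟩, hab', hcell'⟩ := hx'
    have hbj : b / 2 ^ M = j := (cell_mono hmM hcell).trans haj
    have hbj' : b' / 2 ^ M = j := (cell_mono hmM hcell').trans haj'
    simp only [Sigma.mk.injEq, heq_eq_eq] at h
    have h1 : j * 2 ^ M ≤ b := by rw [← hbj]; exact Nat.div_mul_le_self b _
    have h1' : j * 2 ^ M ≤ b' := by rw [← hbj']; exact Nat.div_mul_le_self b' _
    rw [Prod.mk.injEq]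
    omega

theorem cn_split {A : Finset ℕ} {a : ℕ} (ha : a ∈ A) (m : ℕ) :
    (cn A m a : ℝ) - 1 = ((A.filter (fun b => a < b ∧ b / 2 ^ m = a / 2 ^ m)).card : ℝ) +
      ((A.filter (fun b => b < a ∧ b / 2 ^ m = a / 2 ^ m)).card : ℝ) := by
  classical
  have h1 : A.filter (fun b => b / 2 ^ m = a / 2 ^ m) = insert a
      (A.filter (fun b => a < b ∧ b / 2 ^ m = a / 2 ^ m) ∪
        A.filter (fun b => b < a ∧ b / 2 ^ m = a / 2 ^ m)) := by
    ext b
    simp only [mem_filter, mem_insert, mem_union]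
    constructor
    · rintro ⟨h1, h2⟩
      rcases lt_trichotomy a b with h | h | h
      · exact Or.inr (Or.inl ⟨h1, h, h2⟩)
      · exact Or.inl h.symm
      · exact Or.inr (Or.inr ⟨h1, h, h2⟩)
    · rintro (rfl | ⟨h1, _, h2⟩ | ⟨h1, _, h2⟩)
      · exact ⟨ha, rfl⟩
      · exact ⟨h1, h2⟩
      · exact ⟨h1, h2⟩
  have h2 : a ∉ (A.filter (fun b => a < b ∧ b / 2 ^ m = a / 2 ^ m) ∪
        A.filter (fun b => b < a ∧ b / 2 ^ m = a / 2 ^ m)) := by
    simp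
  have h3 : Disjoint (A.filter (fun b => a < b ∧ b / 2 ^ m = a / 2 ^ m))
        (A.filter (fun b => b < a ∧ b / 2 ^ m = a / 2 ^ m)) := by
    rw [Finset.disjoint_left]
    intro b hb hb'
    rw [mem_filter] at hb hb'
    omega
  unfold cn
  rw [h1, Finset.card_insert_of_notMem h2, Finset.card_union_of_disjoint h3]
  push_cast
  ring

theorem PP_bound : ∃ C : ℝ, 0 < C ∧ ∀ M j m : ℕ, 1 ≤ M → 
    ∑ d ∈ Icc 1 (2 ^ m), ((PP M j d).card : ℝ) ≤ C * 2 ^ m * 2 ^ M / (M : ℝ) ^ 2 := by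
  obtain ⟨C, hC, hs⟩ := Pool.Agent.Erdos456.sieve_two
  obtain ⟨C', hC'⟩ := Pool.Agent.Erdos456.Mert.totRatio_moment
  have hC'0 : 0 ≤ C' := by
    have h := hC' 1
    simp at h
    linarith
  have hlog : 0 < Real.log 2 := Real.log_pos (by norm_num)
  refine ⟨C * (C' + 1) / (Real.log 2) ^ 2, by positivity, ?_⟩
  intro M j m hM
  have hMr : (0 : ℝ) < M := by exact_mod_cast hM
  have h1 : ∀ d ∈ Icc 1 (2 ^ m), ((PP M j d).card : ℝ) ≤
      (C * 2 ^ M / (M * Real.log 2) ^ 2) * ((d : ℝ) / (Nat.totient d : ℝ)) ^ 6 := by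
    intro d hd
    rw [mem_Icc] at hd
    have hN : 2 ≤ 2 ^ M := by
      calc 2 = 2 ^ 1 := rfl
        _ ≤ 2 ^ M := Nat.pow_le_pow_right (by norm_num) hM
    have h2 := hs 1 (j * 2 ^ M) 1 (j * 2 ^ M + d) (2 ^ M) one_pos one_pos (Nat.coprime_one_left _)
      (Nat.coprime_one_left _) (by omega) hN
    have h3 : 1 * 1 * (((1 * (j * 2 ^ M + d) : ℕ) : ℤ) - ((1 * (j * 2 ^ M) : ℕ) : ℤ)).natAbs = d := by
      push_cast
      simp
    rw [h3] at h2
    have h4 : Real.log ((2 ^ M : ℕ) : ℝ) = M * Real.log 2 := by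
      push_cast
      rw [Real.log_pow]
    rw [h4] at h2
    have hd0 : 0 < d := hd.1
    have h5 : (1 : ℝ) ≤ (d : ℝ) / (Nat.totient d : ℝ) := by
      rw [one_le_div (by exact_mod_cast Nat.totient_pos.2 hd0)]
      exact_mod_cast Nat.totient_le d
    have h6 : ((d : ℝ) / (Nat.totient d : ℝ)) ^ 2 ≤ ((d : ℝ) / (Nat.totient d : ℝ)) ^ 6 :=
      pow_le_pow_right₀ h5 (by norm_num)
    unfold PP
    refine h2.trans ?_
    calc C * ((d : ℝ) / (Nat.totient d : ℝ)) ^ 2 * ((2 ^ M : ℕ) : ℝ) / (M * Real.log 2) ^ 2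
        = (C * 2 ^ M / (M * Real.log 2) ^ 2) * ((d : ℝ) / (Nat.totient d : ℝ)) ^ 2 := by
          push_cast; ring
      _ ≤ _ := mul_le_mul_of_nonneg_left h6 (by positivity)
  refine (Finset.sum_le_sum h1).trans ?_
  rw [← mul_sum]
  have h2 := hC' (2 ^ m)
  push_cast at h2
  have h3 : ∑ d ∈ Icc (1 : ℕ) (2 ^ m), ((d : ℝ) / (Nat.totient d : ℝ)) ^ 6 ≤
      (C' + 1) * 2 ^ m := by
    have : (0 : ℝ) ≤ 2 ^ m := by positivity
    linarith
  refine (mul_le_mul_of_nonneg_left h3 (by positivity)).trans (le_of_eq ?_)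
  field_simp

theorem hyp_primes : ∃ C : ℝ, 0 ≤ C ∧ ∀ A : Finset ℕ, (∀ a ∈ A, (a + 1).Prime) →
    ∀ M j m : ℕ, 1 ≤ m → m ≤ M →
      ∑ a ∈ A.filter (fun a => a / 2 ^ M = j), g A m a ≤ C * 2 ^ M / (M : ℝ) ^ 2 := by
  obtain ⟨C, hC, hP⟩ := PP_bound
  refine ⟨2 * C, by positivity, ?_⟩
  intro A hA M j m hm hmM
  have h1 := up_count hA M j m hmM
  have h2 := down_count hA M j m hmM
  have h3 := hP M j m (hm.trans hmM)
  have h1' : ∑ a ∈ A.filter (fun a => a / 2 ^ M = j),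
      ((A.filter (fun b => a < b ∧ b / 2 ^ m = a / 2 ^ m)).card : ℝ) ≤
      ∑ d ∈ Icc 1 (2 ^ m), ((PP M j d).card : ℝ) := by exact_mod_cast h1
  have h2' : ∑ a ∈ A.filter (fun a => a / 2 ^ M = j),
      ((A.filter (fun b => b < a ∧ b / 2 ^ m = a / 2 ^ m)).card : ℝ) ≤
      ∑ d ∈ Icc 1 (2 ^ m), ((PP M j d).card : ℝ) := by exact_mod_cast h2
  have h4 : ∑ a ∈ A.filter (fun a => a / 2 ^ M = j), g A m a =
      (∑ a ∈ A.filter (fun a => a / 2 ^ M = j),
      ((A.filter (fun b => a < b ∧ b / 2 ^ m = a / 2 ^ m)).card : ℝ) +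
      ∑ a ∈ A.filter (fun a => a / 2 ^ M = j),
      ((A.filter (fun b => b < a ∧ b / 2 ^ m = a / 2 ^ m)).card : ℝ)) / 2 ^ m := by
    rw [← Finset.sum_add_distrib, Finset.sum_div]
    apply Finset.sum_congr rfl
    intro a ha
    rw [mem_filter] at ha
    unfold g
    rw [cn_split ha.1]
  rw [h4, div_le_iff₀ (by positivity)]
  have h5 : 2 * C * 2 ^ M / (M : ℝ) ^ 2 * 2 ^ m = 2 * (C * 2 ^ m * 2 ^ M / (M : ℝ) ^ 2) := by ring
  rw [h5]
  linarith

end Pool.Agent.H507R2.Recip
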